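import Mathlib
import Pool.Agent.Helper36.CJ.Public
import Pool.Agent.Helper36.CJ.Bridge
import Pool.Agent.Helper36.CJ.Final

/-!
# `MP_58f478_ag`: a fine `V`-compactified Jacobian which is not projective

Negative answer to Q1 (and hence to Q2): over every algebraically closed field there are a nodal
curve `X` and a general `V`-stability condition `n` such that the fine `V`-compactified Jacobian
`J_X(n)` is not projective.

`X` has eight components, all isomorphic to `ℙ¹`, and nine nodes; its dual graph is `θ(3,3,3)` (two
vertices joined by three paths of length three), and `n` has degree `0`.

All definitions used in the statement are in `Pool/Agent/Helper36/CJ/Public.lean`: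
* `NodalCurve k` : connected nodal curves whose components are projective lines;
* `NodalCurve.JacobianModel d n π` : the `k`-scheme `π : J ⟶ Spec k` has (some of) the properties
  of `J_X(n)`: its `k`-rational points are given by the isomorphism classes of stable sheaves, and
  certain families of stable sheaves parametrised by `Spec A`, `A` a finitely generated
  `k`-algebra, induce morphisms `Spec A ⟶ J`. The theorem is about every such `J`.
-/

open AlgebraicGeometry CategoryTheory CompJac

namespace Pool.Agent.Results.MP_58f478_ag.FineVNotProjective

theorem result (k : Type) [Field k] [IsAlgClosed k] :
    ∃ (X : NodalCurve k) (d : ℤ) (n : Finset X.V → ℤ), X.IsVStability d n ∧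
      ∀ (J : Scheme.{0}) (π : J ⟶ Spec (.of k)), X.JacobianModel d n π → ¬ IsProjective π :=
  ⟨theta (Infinite.natEmbedding k), 0, nTheta, theta_isVStability _,
    fun _ π M => not_projective π M.toModuliSpace⟩

end Pool.Agent.Results.MP_58f478_ag.FineVNotProjective
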